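import Mathlib

set_option autoImplicit false

open Set MeasureTheory Topology

namespace Pool.Agent.Results.MP_04fd10_lc.NotOnCantorSpace

/-- `E` is a countable Borel equivalence relation. -/
def IsCBER {X : Type} [MeasurableSpace X] (E : X → X → Prop) : Prop :=
  Equivalence E ∧ MeasurableSet {p : X × X | E p.1 p.2} ∧ ∀ x, {y | E x y}.Countable

/-- `E` is Borel isomorphic to the orbit equivalence relation of a continuous action of a
countable group on the space `K`. -/
def RealizedOn {X : Type} [MeasurableSpace X] (E : X → X → Prop) (K : Type)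
    [TopologicalSpace K] : Prop :=
  ∃ (Γ : Type) (_ : Group Γ) (_ : MulAction Γ K) (f : X → K),
    Countable Γ ∧ ContinuousConstSMul Γ K ∧ @Measurable X K _ (borel K) f ∧
      Function.Bijective f ∧ ∀ x y, E x y ↔ ∃ γ : Γ, γ • f x = f y

/-- The space: `m + 1` copies of Cantor space and `m + 2` further points. -/
def XX (m : ℕ) : Type := ((ℕ → Bool) × Fin (m + 1)) ⊕ Fin (m + 2)

instance (m : ℕ) : TopologicalSpace (XX m) :=
  inferInstanceAs (TopologicalSpace (((ℕ → Bool) × Fin (m + 1)) ⊕ Fin (m + 2)))

instance (m : ℕ) : CompactSpace (XX m) :=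
  inferInstanceAs (CompactSpace (((ℕ → Bool) × Fin (m + 1)) ⊕ Fin (m + 2)))

instance (m : ℕ) : TopologicalSpace.MetrizableSpace (XX m) :=
  inferInstanceAs (TopologicalSpace.MetrizableSpace (((ℕ → Bool) × Fin (m + 1)) ⊕ Fin (m + 2)))

instance (m : ℕ) : PolishSpace (XX m) := by
  letI := TopologicalSpace.metrizableSpaceMetric (XX m)
  infer_instance

instance (m : ℕ) : MeasurableSpace (XX m) := borel (XX m)

instance (m : ℕ) : BorelSpace (XX m) := ⟨rfl⟩

/-- the invariant of a class -/
def key {m : ℕ} : XX m → (ℕ → Bool) ⊕ Unit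
  | .inl p => .inl p.1
  | .inr _ => .inr ()

/-- The relation: `(a, i)` and `(a, j)` are equivalent, and the further points are equivalent. -/
def EE {m : ℕ} (x y : XX m) : Prop := key x = key y

lemma class_inl {m : ℕ} (a : ℕ → Bool) (i : Fin (m + 1)) :
    {y : XX m | EE (.inl (a, i)) y} = range (fun j : Fin (m + 1) => (Sum.inl (a, j) : XX m)) := by
  ext y
  change EE _ y ↔ _
  rcases y with ⟨b, j⟩ | j
  · constructor
    · intro h
      have hab : a = b := Sum.inl_injective h
      exact ⟨j, by rw [hab]⟩
    · rintro ⟨k, h⟩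
      have h1 : (a, k) = (b, j) := Sum.inl_injective h
      have h2 : a = b := congrArg Prod.fst h1
      rw [h2]
      rfl
  · constructor
    · intro h
      exact absurd h Sum.inl_ne_inr
    · rintro ⟨_, h⟩
      exact absurd h Sum.inl_ne_inr

lemma class_inr {m : ℕ} (i : Fin (m + 2)) :
    {y : XX m | EE (.inr i) y} = range (fun j : Fin (m + 2) => (Sum.inr j : XX m)) := by
  ext y
  change EE _ y ↔ _
  rcases y with ⟨b, j⟩ | j
  · constructor
    · intro h
      exact absurd h Sum.inr_ne_inl
    · rintro ⟨_, h⟩
      exact absurd h Sum.inr_ne_inl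
  · exact ⟨fun _ => ⟨j, rfl⟩, fun _ => rfl⟩

lemma finite_class {m : ℕ} (x : XX m) : {y : XX m | EE x y}.Finite := by
  rcases x with ⟨a, i⟩ | i
  · rw [class_inl]; exact finite_range _
  · rw [class_inr]; exact finite_range _

lemma encard_inl {m : ℕ} (a : ℕ → Bool) (i : Fin (m + 1)) :
    {y : XX m | EE (.inl (a, i)) y}.encard = m + 1 := by
  have hi : Function.Injective (fun j : Fin (m + 1) => (Sum.inl (a, j) : XX m)) := by
    intro j k h
    have h1 : (a, j) = (a, k) := Sum.inl_injective h
    exact congrArg Prod.snd h1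
  rw [class_inl, ← image_univ]
  refine (hi.encard_image univ).trans ?_
  simp

lemma encard_inr {m : ℕ} (i : Fin (m + 2)) : {y : XX m | EE (.inr i) y}.encard = m + 2 := by
  have hi : Function.Injective (fun j : Fin (m + 2) => (Sum.inr j : XX m)) := by
    intro j k h
    exact Sum.inr_injective h
  rw [class_inr, ← image_univ]
  refine (hi.encard_image univ).trans ?_
  simp

lemma isCBER (m : ℕ) : IsCBER (EE (m := m)) := by
  refine ⟨⟨fun _ => rfl, fun h => h.symm, fun h h' => h.trans h'⟩, ?_,
    fun x => (finite_class x).countable⟩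
  have hk : Continuous (key : XX m → (ℕ → Bool) ⊕ Unit) := by
    have : (key : XX m → (ℕ → Bool) ⊕ Unit) = Sum.elim (fun p => Sum.inl p.1)
        (fun _ => Sum.inr ()) := by
      funext x
      rcases x with x | x <;> rfl
    rw [this]
    exact Continuous.sumElim (continuous_inl.comp continuous_fst) continuous_const
  exact (isClosed_eq (hk.comp continuous_fst) (hk.comp continuous_snd)).measurableSet

/-- The acting group. -/
abbrev GG (m : ℕ) : Type := Equiv.Perm (Fin (m + 1)) × Equiv.Perm (Fin (m + 2))

instance (m : ℕ) : MulAction (GG m) (XX m) where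
  smul g x := (Sum.map (fun p => (p.1, g.1 p.2)) (fun j => g.2 j) x :
    ((ℕ → Bool) × Fin (m + 1)) ⊕ Fin (m + 2))
  one_smul x := by
    rcases x with ⟨a, i⟩ | i <;> rfl
  mul_smul g h x := by
    rcases x with ⟨a, i⟩ | i <;> rfl

lemma realized (m : ℕ) : RealizedOn (EE (m := m)) (XX m) := by
  refine ⟨GG m, inferInstance, inferInstance, id, inferInstance, ?_, ?_, Function.bijective_id, ?_⟩
  · constructor
    intro g
    change Continuous (Sum.map (fun p : (ℕ → Bool) × Fin (m + 1) => (p.1, g.1 p.2))
      (fun j : Fin (m + 2) => g.2 j))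
    apply Continuous.sumMap
    · exact continuous_fst.prodMk (continuous_of_discreteTopology.comp continuous_snd)
    · exact continuous_of_discreteTopology
  · exact measurable_id
  · intro x y
    constructor
    · intro h
      rcases x with ⟨a, i⟩ | i <;> rcases y with ⟨b, j⟩ | j
      · have hab : a = b := Sum.inl_injective h
        subst hab
        refine ⟨(Equiv.swap i j, 1), ?_⟩
        change (Sum.inl (a, Equiv.swap i j i) : XX m) = Sum.inl (a, j)
        rw [Equiv.swap_apply_left]
      · exact absurd h Sum.inl_ne_inr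
      · exact absurd h Sum.inr_ne_inl
      · refine ⟨(1, Equiv.swap i j), ?_⟩
        change (Sum.inr (Equiv.swap i j i) : XX m) = Sum.inr j
        rw [Equiv.swap_apply_left]
    · rintro ⟨g, rfl⟩
      rcases x with ⟨a, i⟩ | i <;> rfl

/-- The points with at least `m + 2` points in their orbit form an open set, and nonempty open
sets of Cantor space are infinite. -/
lemma not_realized (m : ℕ) : ¬ RealizedOn (EE (m := m)) (ℕ → Bool) := by
  rintro ⟨Γ, _, _, f, _, hc, -, hf, hE⟩
  -- the exceptional class
  let a : Fin (m + 2) → XX m := fun j => Sum.inr j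
  have h1 : ∀ j, ∃ γ : Γ, γ • f (a 0) = f (a j) := fun j => (hE _ _).1 rfl
  choose γ hγ using h1
  have hinj : ∀ i j, i ≠ j → γ i • f (a 0) ≠ γ j • f (a 0) := by
    intro i j hij h
    rw [hγ, hγ] at h
    have := hf.1 h
    exact hij (Sum.inr_injective this)
  let U : Set (ℕ → Bool) := {z | ∀ i j, i ≠ j → γ i • z ≠ γ j • z}
  have hU : IsOpen U := by
    have : U = ⋂ i, ⋂ j, ⋂ _ : i ≠ j, {z | γ i • z ≠ γ j • z} := by
      ext z; simp [U]
    rw [this]
    refine isOpen_iInter_of_finite fun i => isOpen_iInter_of_finite fun j =>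
      isOpen_iInter_of_finite fun _ => ?_
    exact (isClosed_eq (continuous_const_smul (γ i)) (continuous_const_smul (γ j))).isOpen_compl
  have hUne : f (a 0) ∈ U := hinj
  -- nonempty open sets of Cantor space are infinite
  have hUinf : U.Infinite := by
    have h3 : ∃ n : ℕ, ∀ z : ℕ → Bool, (∀ k < n, z k = f (a 0) k) → z ∈ U := by
      obtain ⟨s, hs1, hs2⟩ := isOpen_pi_iff.1 hU _ hUne
      obtain ⟨n, hn⟩ := s.exists_nat_subset_range
      refine ⟨n, fun z hz => hs2.2 ?_⟩
      intro k hk
      rw [hz k (Finset.mem_range.1 (hn hk))]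
      exact (hs2.1 k hk).2
    obtain ⟨n, hn⟩ := h3
    refine Infinite.mono (s := range fun k : ℕ => Function.update (f (a 0)) (n + k)
      (!(f (a 0) (n + k)))) ?_ (infinite_range_of_injective ?_)
    · rintro _ ⟨k, rfl⟩
      apply hn
      intro l hl
      exact Function.update_of_ne (by omega) _ _
    · intro k l hkl
      by_contra hne
      have h4 := congrFun hkl (n + k)
      simp only [Function.update_self] at h4
      rw [Function.update_of_ne (by omega)] at h4
      simp at h4
  -- the exceptional class is finite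
  obtain ⟨z, hz, hz'⟩ := hUinf.exists_notMem_finite (finite_range fun j => f (a j))
  obtain ⟨x, rfl⟩ := hf.2 z
  rcases x with ⟨b, i⟩ | j
  · -- the class of `(b, i)` has only `m + 1` points
    have h5 : ∀ j, ∃ k : Fin (m + 1), f (Sum.inl (b, k)) = γ j • f (Sum.inl (b, i)) := by
      intro j
      obtain ⟨y, hy⟩ := hf.2 (γ j • f (Sum.inl (b, i)))
      have h6 : EE (Sum.inl (b, i)) y := (hE _ _).2 ⟨γ j, hy.symm⟩
      have h7 : y ∈ {y : XX m | EE (.inl (b, i)) y} := h6
      rw [class_inl] at h7
      obtain ⟨k, rfl⟩ := h7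
      exact ⟨k, hy⟩
    choose k hk using h5
    obtain ⟨j, j', hjj, hkk⟩ := Fintype.exists_ne_map_eq_of_card_lt k (by simp)
    refine hz j j' hjj ?_
    rw [← hk, ← hk, hkk]
  · exact hz' ⟨j, rfl⟩

/-- For every `m` there is a countable Borel equivalence relation on an uncountable standard Borel
space all of whose classes have at least `m + 1` points, which is Borel isomorphic to the orbit
equivalence relation of a continuous action of a countable group on a compact metrizable space,
but not to that of any such action on Cantor space. -/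
theorem result (m : ℕ) : ∃ (X : Type) (_ : MeasurableSpace X) (E : X → X → Prop),
    StandardBorelSpace X ∧ Uncountable X ∧ IsCBER E ∧
    (∀ x, (m + 1 : ℕ∞) ≤ {y | E x y}.encard) ∧
    (∃ (K : Type) (_ : TopologicalSpace K), CompactSpace K ∧ TopologicalSpace.MetrizableSpace K ∧
      RealizedOn E K) ∧
    ¬ RealizedOn E (ℕ → Bool) := by
  refine ⟨XX m, inferInstance, EE, inferInstance, ?_, isCBER m, ?_,
    ⟨XX m, inferInstance, inferInstance, inferInstance, realized m⟩, not_realized m⟩
  · have h0 : Uncountable (ℕ → Bool) := by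
      rw [← Cardinal.aleph0_lt_mk_iff]
      simpa using Cardinal.aleph0_lt_continuum
    have hi : Function.Injective (fun a : ℕ → Bool => (Sum.inl (a, 0) : XX m)) := by
      intro a b h
      have h1 : (a, (0 : Fin (m + 1))) = (b, 0) := Sum.inl_injective h
      exact congrArg Prod.fst h1
    exact hi.uncountable
  · rintro (⟨a, i⟩ | i)
    · rw [encard_inl]
    · rw [encard_inr]
      exact_mod_cast Nat.le_succ (m + 1)

end Pool.Agent.Results.MP_04fd10_lc.NotOnCantorSpace
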